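import Pool.Agent.H69.PLN.Sep0
import Pool.Agent.H1.PLN.Stm

/-!
# (SEP): copies of a tuple of samples

`sep_S`: in a class in which the coordinate `k` is active and in which the labels at another time
are few bits given the exact point, the typical tuples of samples of a line have many copies with
the same exact point at one of the times, with the same labels at all times, and with separated
velocities.
-/

set_option autoImplicit false

namespace Pool.PLN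

open Finset Real
open Pool.Agent.H49.Ent Pool.Agent.H32.Dense Pool.STK Pool.KA Pool.KSAT Pool.K2S Pool.PB
  Pool.GEN Pool.S6C Pool.JPR
open Pool.KM7 (P2 Psh)
open Pool.KSM (iid iid_law iid_marg)

variable {m J : ℕ}

/-- There is no law on an event of probability zero. -/
theorem pn_zero (F : Fam m J) (A : F.Ω → Prop) (hA : ¬ 0 < Pe F.p A) (W n : ℕ)
    (E : (Fin (n + 1) → F.Ω) → Prop) : Pe (pn F A W n) E = 0 := by
  classical
  have h0 : Pe F.p A = 0 := le_antisymm (not_lt.1 hA) (Pe_nonneg F.isLaw A)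
  have h1 : ∀ ω, pA F A ω = 0 := by
    intro ω
    show Pool.Agent.H49.Ent.cond F.p A True ω = 0
    rw [cond_ev, h0, div_zero]
    split_ifs <;> rfl
  rw [Pe_eq]
  refine Finset.sum_eq_zero fun v _ => ?_
  have h2 : pn F A W n v = 0 := by
    show iid (pA F A) (slam F W) n v = 0
    unfold Pool.KSM.iid
    have h3 : law (pA F A) (slam F W) (slam F W (v 0)) = 0 := by
      unfold law
      refine Finset.sum_eq_zero fun ω _ => ?_
      rw [h1]
      split_ifs <;> rfl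
    rw [h3, zero_mul]
  rw [h2]
  split_ifs <;> rfl

/-- **One of the samples**, in a member of the class. -/
theorem sep_mem {F : Fam m J} {A : F.Ω → Prop} (hA : 0 < Pe F.p A) {W a a' n M : ℕ} {k : Fin m}
    {V : Type} (z : PtT F → V) {c h C : ℝ} (hC : 1 ≤ C)
    (hh : CH (p2 F A W) (fun v => z (ptr F J v.2)) (fun v => ptr F J v.1) ≤ c)
    (ha : ∀ r : F.Ω → ℝ, IsLaw r → (∀ ω, r ω ≤ C * Pool.Agent.H49.Ent.cond F.p A True ω) →
      h ≤ CH r (fun ω => F.D a' ω k) (fun ω => (F.D a ω, (F.X J ω, F.W ω))))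
    (E : (Fin (n + 1) → F.Ω) → Prop) (j : Fin (n + 1))
    (hb : 1 ≤ C * Pe (pn F A W n) (fun v => E v ∧ ¬ Cpy (pn F A W n) E
      (fun v => F.D a' (v j) k) (fun v => (ptr F J (v j), (F.D a (v j) k,
        fun i => z (ptr F J (v i))))) M v)) :
    h ≤ ((n + 1 : ℕ) : ℝ) * (C * c) + Real.log (2 * M + 1) := by
  classical
  have hl : IsLaw (pA F A) := isLaw_cond F.isLaw hA
  have hC0 : 0 < C := by linarith
  obtain ⟨mu, hmu⟩ : ∃ mu, mu = pn F A W n := ⟨_, rfl⟩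
  have hml : IsLaw mu := by
    rw [hmu]
    exact iid_law hl
  have hc0 : 0 ≤ c := le_trans (CH_nonneg (Pool.KM7.P2_isLaw hl _).nonneg _ _) hh
  obtain ⟨Y, hY⟩ : ∃ Y : (Fin (n + 1) → F.Ω) → ℤ, Y = fun v => F.D a' (v j) k := ⟨_, rfl⟩
  obtain ⟨L, hL⟩ : ∃ L : (Fin (n + 1) → F.Ω) → Fin (n + 1) → V,
    L = fun v i => z (ptr F J (v i)) := ⟨_, rfl⟩
  obtain ⟨B, hB⟩ : ∃ B : (Fin (n + 1) → F.Ω) → PtT F × (ℤ × (Fin (n + 1) → V)),
    B = fun v => (ptr F J (v j), (F.D a (v j) k, fun i => z (ptr F J (v i)))) := ⟨_, rfl⟩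
  obtain ⟨G, hG⟩ : ∃ G : (Fin (n + 1) → F.Ω) → Prop, G = fun v => E v ∧ ¬ Cpy mu E Y B M v :=
    ⟨_, rfl⟩
  have hGP : 1 ≤ C * Pe mu G := by
    rw [hG, hmu, hY, hB]
    exact hb
  have hG0 : 0 < Pe mu G := by
    by_contra hcon
    have h1 : C * Pe mu G ≤ 0 := mul_nonpos_of_nonneg_of_nonpos hC0.le (not_lt.1 hcon)
    linarith
  obtain ⟨nu, hnu⟩ : ∃ nu, nu = Pool.Agent.H49.Ent.cond mu G True := ⟨_, rfl⟩
  have hnl : IsLaw nu := by
    rw [hnu]
    exact isLaw_cond hml hG0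
  have hnd : ∀ v, nu v ≤ C * mu v := by
    intro v
    rw [hnu, cond_ev]
    split_ifs
    · rw [div_le_iff₀ hG0]
      have h1 := mul_le_mul_of_nonneg_left hGP (hml.nonneg v)
      linarith
    · exact mul_nonneg hC0.le (hml.nonneg v)
  -- the law of the sample `j`
  obtain ⟨r, hr⟩ : ∃ r : F.Ω → ℝ, r = fun ω => law nu (fun v => v j) ω := ⟨_, rfl⟩
  have hpsh : Psh nu (fun v => v j) r := fun ω => by rw [hr]
  have hrl : IsLaw r := by
    refine ⟨fun ω => ?_, ?_⟩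
    · rw [hr]
      exact law_nonneg hnl.nonneg _ _
    · have h5 := hpsh.Ex_eq (fun _ => (1 : ℝ))
      unfold Ex at h5
      simp only [mul_one] at h5
      rw [← h5, hnl.sum_one]
  have hrd : ∀ ω, r ω ≤ C * Pool.Agent.H49.Ent.cond F.p A True ω := by
    intro ω
    have h5 := iid_marg (n := n) (W := slam F W) hl.nonneg j ω
    have h6 : Pool.Agent.H49.Ent.cond F.p A True ω = pA F A ω := rfl
    rw [h6, ← h5, hr, Finset.mul_sum]
    simp only
    unfold law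
    refine Finset.sum_le_sum fun v _ => ?_
    split_ifs
    · have h7 := hnd v
      rw [hmu] at h7
      exact h7
    · rw [mul_zero]
  have h1 := ha r hrl hrd
  rw [← hpsh.CH_eq (fun ω => F.D a' ω k) (fun ω => (F.D a ω, (F.X J ω, F.W ω)))] at h1
  obtain ⟨U, hU⟩ : ∃ U : (Fin (n + 1) → F.Ω) → (Fin m → ℤ) × PtT F,
    U = fun v => (F.D a (v j), ptr F J (v j)) := ⟨_, rfl⟩
  have h1' : h ≤ CH nu Y U := by
    rw [hY, hU]
    exact h1
  have h2 := CH_le_add hnl.nonneg Y L U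
  have h3 : CH nu L U ≤ CH nu L (fun v => ptr F J (v j)) := by
    refine CH_mono_cond hnl.nonneg fun v v' _ _ e => ?_
    rw [hU] at e
    exact (Prod.ext_iff.1 e).2
  have h4 : CH nu Y (fun v => (L v, U v)) ≤ CH nu Y B := by
    refine CH_mono_cond hnl.nonneg fun v v' _ _ e => ?_
    have e1 : L v = L v' := (Prod.ext_iff.1 e).1
    have e2 : U v = U v' := (Prod.ext_iff.1 e).2
    rw [hU] at e2
    rw [hL] at e1
    have e3 : F.D a (v j) = F.D a (v' j) := (Prod.ext_iff.1 e2).1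
    have e4 : ptr F J (v j) = ptr F J (v' j) := (Prod.ext_iff.1 e2).2
    rw [hB]
    simp only
    rw [e3, e4]
    have e5 : (fun i => z (ptr F J (v i))) = fun i => z (ptr F J (v' i)) := e1
    rw [e5]
  have h5 : CH nu Y B ≤ Real.log (2 * M + 1) := by
    rw [hnu, hG]
    refine few_CH hml E Y B M ?_
    rw [hG] at hG0
    exact hG0
  have h6 : CH nu L (fun v => ptr F J (v j)) ≤ ((n + 1 : ℕ) : ℝ) * (C * c) := by
    rw [hL]
    refine CH_pi_le hnl.nonneg (fun v => ptr F J (v j)) (n + 1)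
      (fun i v => z (ptr F J (v i))) fun i => ?_
    by_cases hij : i = j
    · rw [hij, CH_eq_zero hnl.nonneg (fun v v' _ _ e => by
        show z (ptr F J (v j)) = z (ptr F J (v' j))
        rw [show ptr F J (v j) = ptr F J (v' j) from e])]
      exact mul_nonneg hC0.le hc0
    · have h7 := Pool.KJ.CH_dens hml hnl hnd (fun v => z (ptr F J (v i)))
        (fun v => ptr F J (v j))
      refine h7.trans (mul_le_mul_of_nonneg_left ?_ hC0.le)
      have h8 := (Pool.PLN26.iid_two (n := n) (W := slam F W) hl.nonneg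
        (fun h => hij h.symm : j ≠ i)).CH (fun e : F.Ω × F.Ω => z (ptr F J e.2))
          (fun e : F.Ω × F.Ω => ptr F J e.1)
      rw [hmu]
      refine le_trans (le_of_eq ?_) hh
      exact h8
  linarith

theorem apart_fl {x y : ℝ} {s : ℕ} (h : 2 ≤ |⌊(2 : ℝ) ^ s * x⌋ - ⌊(2 : ℝ) ^ s * y⌋|) :
    1 / 2 ^ s ≤ |x - y| := by
  have h1 : (2 : ℝ) ≤ |((⌊(2 : ℝ) ^ s * x⌋ : ℤ) : ℝ) - ((⌊(2 : ℝ) ^ s * y⌋ : ℤ) : ℝ)| := by
    have : ((2 : ℤ) : ℝ) ≤ ((|⌊(2 : ℝ) ^ s * x⌋ - ⌊(2 : ℝ) ^ s * y⌋| : ℤ) : ℝ) := by exact_mod_cast h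
    push_cast at this
    exact this
  have h2 := Int.floor_le ((2 : ℝ) ^ s * x)
  have h3 := Int.lt_floor_add_one ((2 : ℝ) ^ s * x)
  have h4 := Int.floor_le ((2 : ℝ) ^ s * y)
  have h5 := Int.lt_floor_add_one ((2 : ℝ) ^ s * y)
  have h6 : (1 : ℝ) ≤ |(2 : ℝ) ^ s * x - 2 ^ s * y| := by
    rcases le_total ((⌊(2 : ℝ) ^ s * x⌋ : ℤ) : ℝ) ((⌊(2 : ℝ) ^ s * y⌋ : ℤ) : ℝ) with h7 | h7
    · rw [abs_of_nonpos (by linarith)] at h1
      rw [abs_of_nonpos (by linarith)]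
      linarith
    · rw [abs_of_nonneg (by linarith)] at h1
      rw [abs_of_nonneg (by linarith)]
      linarith
  have h7 : (0 : ℝ) < 2 ^ s := by positivity
  have h8 : |(2 : ℝ) ^ s * x - 2 ^ s * y| = 2 ^ s * |x - y| := by
    rw [← mul_sub, abs_mul, abs_of_pos h7]
  rw [h8] at h6
  rw [div_le_iff₀ h7]
  linarith

/-- **(SEP).** -/
theorem sep_S {S : PCl m} {k : Fin m} {N : ℚ → ℚ → ℝ} (hact : ActB N S k) {w0 w1 e : ℝ}
    (h2 : H2S S w0 w1 e) {q q₁ : ℚ} (hq : 0 ≤ q) (hq1 : 0 ≤ q₁) (hqq : q + q₁ ≤ 1) (n M : ℕ)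
    (he : 2 * ((n : ℝ) + 1) ^ 2 * e < N q (q + q₁) * Real.log 2) :
    SepS S k w0 w1 q q₁ n M := by
  classical
  have hl2 : 0 < Real.log 2 := Real.log_pos one_lt_two
  have hn : (0 : ℝ) < (n : ℝ) + 1 := by positivity
  obtain ⟨C, hCe⟩ : ∃ C : ℝ, C = 2 * ((n : ℝ) + 1) := ⟨_, rfl⟩
  have hn0 : (0 : ℝ) ≤ (n : ℝ) := Nat.cast_nonneg n
  have hC : 1 ≤ C := by
    rw [hCe]
    linarith
  obtain ⟨δ, hδ⟩ : ∃ δ, δ = N q (q + q₁) * Real.log 2 - 2 * ((n : ℝ) + 1) ^ 2 * e := ⟨_, rfl⟩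
  have hδ0 : 0 < δ := by linarith
  obtain ⟨ρ, hρ⟩ : ∃ ρ, ρ = δ / (8 * ((n : ℝ) + 1) ^ 2) := ⟨_, rfl⟩
  have hρ0 : 0 < ρ := by rw [hρ]; positivity
  obtain ⟨ρa, hρa⟩ : ∃ ρa, ρa = δ / (4 * Real.log 2) := ⟨_, rfl⟩
  have hρa0 : 0 < ρa := by rw [hρa]; positivity
  obtain ⟨J₀, hJ₀⟩ := exists_nat_gt (Real.log (2 * M + 1) / (δ / 2))
  refine ((act_dens hact hq (by linarith : q ≤ q + q₁) hqq hC hρa0).and (h2 ρ hρ0)).mono J₀ ?_
  rintro J hJ F A ⟨ha, hh⟩ V z z' hz E hE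
  by_cases hA : 0 < Pe F.p A
  swap
  · rw [pn_zero F A hA] at hE
    norm_num at hE
  have hl : IsLaw (pA F A) := isLaw_cond F.isLaw hA
  have hml : IsLaw (pn F A ⌊w0 * J⌋₊ n) := iid_law hl
  have hh' := hh V z z' hz
  have ha' := ha hA
  have hJr : (J₀ : ℝ) ≤ J := by exact_mod_cast hJ
  have hJ1 : Real.log (2 * M + 1) < δ / 2 * J := by
    have h3 := lt_of_lt_of_le hJ₀ hJr
    rw [div_lt_iff₀ (by positivity)] at h3
    linarith
  have hcast : (((q + q₁ : ℚ) : ℝ)) = (q : ℝ) + q₁ := by push_cast; ring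
  -- no bad event is large
  have hbad : ∀ j : Fin (n + 1), Pe (pn F A ⌊w0 * J⌋₊ n) (fun v => E v ∧
      ¬ Cpy (pn F A ⌊w0 * J⌋₊ n) E (fun v => F.D ⌊(((q + q₁ : ℚ) : ℝ)) * J⌋₊ (v j) k)
        (fun v => (ptr F J (v j), (F.D ⌊(q : ℝ) * J⌋₊ (v j) k,
          fun i => z (ptr F J (v i))))) M v) < 1 / C := by
    intro j
    by_contra hcon
    push Not at hcon
    have hC0 : 0 < C := by linarith
    rw [div_le_iff₀ hC0] at hcon
    have h3 := sep_mem hA z hC hh' ha' (M := M) E j (by linarith)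
    have h4 : ((n + 1 : ℕ) : ℝ) * (C * ((e + ρ) * J)) =
        (2 * ((n : ℝ) + 1) ^ 2 * e + δ / 4) * J := by
      rw [hCe, hρ]
      push_cast
      field_simp
      ring
    have h5 : (N q (q + q₁) - ρa) * Real.log 2 * J =
        (N q (q + q₁) * Real.log 2 - δ / 4) * J := by
      rw [hρa]
      field_simp
    rw [h4, h5] at h3
    have h6 : (N q (q + q₁) * Real.log 2 - δ / 4) * J -
        (2 * ((n : ℝ) + 1) ^ 2 * e + δ / 4) * J = δ / 2 * J := by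
      rw [hδ]
      ring
    linarith
  by_contra hcon
  have h3 := pe_ex (p := pn F A ⌊w0 * J⌋₊ n) (Finset.univ : Finset (Fin (n + 1))) hml.nonneg
    (A := E) (fun j v => E v ∧
      ¬ Cpy (pn F A ⌊w0 * J⌋₊ n) E (fun v => F.D ⌊(((q + q₁ : ℚ) : ℝ)) * J⌋₊ (v j) k)
        (fun v => (ptr F J (v j), (F.D ⌊(q : ℝ) * J⌋₊ (v j) k,
          fun i => z (ptr F J (v i))))) M v) (by
      intro v hv hEv
      by_contra hcon2
      refine hcon ⟨v, hEv, hv, fun j => ?_⟩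
      have h4 : Cpy (pn F A ⌊w0 * J⌋₊ n) E (fun v => F.D ⌊(((q + q₁ : ℚ) : ℝ)) * J⌋₊ (v j) k)
        (fun v => (ptr F J (v j), (F.D ⌊(q : ℝ) * J⌋₊ (v j) k,
          fun i => z (ptr F J (v i))))) M v := by
        by_contra h5
        exact hcon2 ⟨j, Finset.mem_univ _, hEv, h5⟩
      obtain ⟨u, hu⟩ := h4
      refine ⟨u, fun a => ⟨⟨(hu a).1.1, (hu a).1.2.1, ?_, fun i => ?_, ?_⟩, fun a' haa => ?_⟩⟩
      · exact (Prod.ext_iff.1 (hu a).1.2.2).1
      · exact congrFun (Prod.ext_iff.1 (Prod.ext_iff.1 (hu a).1.2.2).2).2 i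
      · exact (Prod.ext_iff.1 (Prod.ext_iff.1 (hu a).1.2.2).2).1
      · have h5 := (hu a).2 a' haa
        rw [← hcast]
        exact apart_fl h5)
  have h4 : ∑ j : Fin (n + 1), Pe (pn F A ⌊w0 * J⌋₊ n) (fun v => E v ∧
      ¬ Cpy (pn F A ⌊w0 * J⌋₊ n) E (fun v => F.D ⌊(((q + q₁ : ℚ) : ℝ)) * J⌋₊ (v j) k)
        (fun v => (ptr F J (v j), (F.D ⌊(q : ℝ) * J⌋₊ (v j) k,
          fun i => z (ptr F J (v i))))) M v) < ∑ _j : Fin (n + 1), 1 / C :=
    Finset.sum_lt_sum_of_nonempty Finset.univ_nonempty fun j _ => hbad j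
  rw [Finset.sum_const, Finset.card_univ, Fintype.card_fin, nsmul_eq_mul] at h4
  have h5 : ((n + 1 : ℕ) : ℝ) * (1 / C) = 1 / 2 := by
    rw [hCe]
    push_cast
    field_simp
  rw [h5] at h4
  linarith

/-- **(SEP)**, the loss of (H2) is small compared with the activity. -/
theorem sep_S2 {S : PCl m} {k : Fin m} {N : ℚ → ℚ → ℝ} (hact : ActB N S k) {w0 w1 e : ℝ}
    (he0 : 0 ≤ e) (h2 : H2S S w0 w1 e) {q q₁ : ℚ} (hq : 0 ≤ q) (hq1 : 0 ≤ q₁)
    (hqq : q + q₁ ≤ 1) (n M : ℕ) (he : 4 * ((n : ℝ) + 1) ^ 2 * e < N q (q + q₁)) :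
    SepS S k w0 w1 q q₁ n M := by
  refine sep_S hact h2 hq hq1 hqq n M ?_
  have h1 : (1 : ℝ) / 2 < Real.log 2 := by linarith [Real.log_two_gt_d9]
  have h3 : 0 ≤ 4 * ((n : ℝ) + 1) ^ 2 * e := by positivity
  have h4 : 0 < N q (q + q₁) := lt_of_le_of_lt h3 he
  nlinarith

end Pool.PLN
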