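import Pool.Agent.H53.JM.Tilt
import Pool.Agent.H72.KJ.Ent5
import Pool.Agent.H60.KSM.Iid
import Pool.Agent.H72.ACT.Stm
import Pool.Agent.H1.PLN.Prb
import Pool.Agent.H26.PLN.Iid

/-!
# Copies of a tuple of samples: tools

`two_apart`: among `2 M` integers there are `M` with distances at least `2`. `few_CH`: a variable
without `M` separated copies has small entropy. `act_dens`: the activity for laws of bounded
density.
-/

set_option autoImplicit false

namespace Pool.PLN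

open Finset Real
open Pool.Agent.H49.Ent Pool.Agent.H32.Dense Pool.STK Pool.KA Pool.KSAT Pool.K2S Pool.PB
  Pool.GEN Pool.S6C Pool.JPR

/-- Every second of the elements. -/
theorem two_apart (s : Finset ℤ) (M : ℕ) (h : 2 * M ≤ s.card) :
    ∃ f : Fin M → ℤ, (∀ a, f a ∈ s) ∧ ∀ a a', a ≠ a' → 2 ≤ |f a - f a'| := by
  obtain ⟨g, hg⟩ : ∃ g : Fin s.card ↪o ℤ, g = s.orderEmbOfFin rfl := ⟨_, rfl⟩
  have hmem : ∀ i, g i ∈ s := fun i => by
    rw [hg]
    exact Finset.orderEmbOfFin_mem s rfl i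
  have hstep : ∀ i j : Fin s.card, (i : ℕ) + 2 ≤ j → g i + 2 ≤ g j := by
    intro i j hij
    have h1 : (i : ℕ) + 1 < s.card := by
      have := j.isLt
      omega
    have h2 : g i < g ⟨(i : ℕ) + 1, h1⟩ := g.strictMono (by
      rw [Fin.lt_def]
      show (i : ℕ) < (i : ℕ) + 1
      omega)
    have h3 : g ⟨(i : ℕ) + 1, h1⟩ < g j := g.strictMono (by
      rw [Fin.lt_def]
      show (i : ℕ) + 1 < (j : ℕ)
      omega)
    omega
  refine ⟨fun a => g ⟨2 * (a : ℕ), by have := a.isLt; omega⟩, fun a => hmem _, fun a a' haa => ?_⟩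
  rcases lt_or_gt_of_ne (fun h => haa (Fin.ext h) : (a : ℕ) ≠ a') with h1 | h1
  · have h2 := hstep ⟨2 * (a : ℕ), by have := a.isLt; omega⟩
      ⟨2 * (a' : ℕ), by have := a'.isLt; omega⟩ (by
        show 2 * (a : ℕ) + 2 ≤ 2 * (a' : ℕ)
        omega)
    rw [abs_sub_comm]
    have h3 : 2 ≤ g ⟨2 * (a' : ℕ), by have := a'.isLt; omega⟩ -
        g ⟨2 * (a : ℕ), by have := a.isLt; omega⟩ := by omega
    exact h3.trans (le_abs_self _)
  · have h2 := hstep ⟨2 * (a' : ℕ), by have := a'.isLt; omega⟩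
      ⟨2 * (a : ℕ), by have := a.isLt; omega⟩ (by
        show 2 * (a' : ℕ) + 2 ≤ 2 * (a : ℕ)
        omega)
    have h3 : 2 ≤ g ⟨2 * (a : ℕ), by have := a.isLt; omega⟩ -
        g ⟨2 * (a' : ℕ), by have := a'.isLt; omega⟩ := by omega
    exact h3.trans (le_abs_self _)

section few

variable {Ω T : Type} [Fintype Ω]

/-- `M` copies of the sample with the same value of `B` and with separated values of `Y`. -/
def Cpy (q : Ω → ℝ) (E : Ω → Prop) (Y : Ω → ℤ) (B : Ω → T) (M : ℕ) (v : Ω) : Prop :=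
  ∃ u : Fin M → Ω, ∀ a, (E (u a) ∧ 0 < q (u a) ∧ B (u a) = B v) ∧
    ∀ a', a ≠ a' → 2 ≤ |Y (u a) - Y (u a')|

/-- **A variable without separated copies** has small entropy. -/
theorem few_CH {q : Ω → ℝ} (hq : IsLaw q) (E : Ω → Prop) (Y : Ω → ℤ) (B : Ω → T) (M : ℕ)
    (hb : 0 < Pe q (fun v => E v ∧ ¬ Cpy q E Y B M v)) :
    CH (Pool.Agent.H49.Ent.cond q (fun v => E v ∧ ¬ Cpy q E Y B M v) True) Y B ≤
      Real.log (2 * M + 1) := by
  classical
  obtain ⟨G, hG⟩ : ∃ G : Ω → Prop, G = fun v => E v ∧ ¬ Cpy q E Y B M v := ⟨_, rfl⟩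
  rw [← hG] at hb ⊢
  have hl := isLaw_cond hq hb
  obtain ⟨S, hS⟩ : ∃ S : T → Finset ℤ, S = fun b =>
      (univ.filter fun v => G v ∧ 0 < q v ∧ B v = b).image Y := ⟨_, rfl⟩
  have hpos : ∀ v, 0 < Pool.Agent.H49.Ent.cond q G True v → G v ∧ 0 < q v := by
    intro v hv
    have := (cond_pos_iff hq.nonneg G True v).1 hv
    exact ⟨of_eq_true this.2, this.1⟩
  have h1 := CH_le_card hl.nonneg hl.sum_one Y B S (fun v hv => by
    rw [hS]
    exact Finset.mem_image.2 ⟨v, Finset.mem_filter.2 ⟨Finset.mem_univ _, (hpos v hv).1,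
      (hpos v hv).2, rfl⟩, rfl⟩)
  refine h1.trans ?_
  rw [← Ex_const hl.sum_one (Real.log (2 * M + 1))]
  refine Ex_mono hl.nonneg fun v hv => ?_
  have h2 := hpos v hv
  have h3 : (S (B v)).card ≤ 2 * M := by
    by_contra hcon
    push Not at hcon
    obtain ⟨f, hf1, hf2⟩ := two_apart (S (B v)) M hcon.le
    have h4 : ∀ a, ∃ w, (G w ∧ 0 < q w ∧ B w = B v) ∧ Y w = f a := by
      intro a
      have h5 := hf1 a
      rw [hS] at h5
      obtain ⟨w, hw, hw'⟩ := Finset.mem_image.1 h5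
      exact ⟨w, (Finset.mem_filter.1 hw).2, hw'⟩
    choose u hu hu' using h4
    have h5 : Cpy q E Y B M v := by
      refine ⟨u, fun a => ⟨⟨?_, (hu a).2.1, (hu a).2.2⟩, fun a' haa => ?_⟩⟩
      · have h6 := (hu a).1
        rw [hG] at h6
        exact h6.1
      · rw [hu', hu']
        exact hf2 a a' haa
    have h6 := h2.1
    rw [hG] at h6
    exact h6.2 h5
  have h4 : (0 : ℝ) < (S (B v)).card := by
    have : 0 < (S (B v)).card := Finset.card_pos.2 ⟨Y v, by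
      rw [hS]
      exact Finset.mem_image.2 ⟨v, Finset.mem_filter.2 ⟨Finset.mem_univ _, h2.1, h2.2, rfl⟩, rfl⟩⟩
    exact_mod_cast this
  refine Real.log_le_log h4 ?_
  have h5 : ((S (B v)).card : ℝ) ≤ ((2 * M : ℕ) : ℝ) := by exact_mod_cast h3
  push_cast at h5
  linarith

end few

variable {m : ℕ}

/-- **Activity for laws of bounded density.** -/
theorem act_dens {S : PCl m} {k : Fin m} {N : ℚ → ℚ → ℝ} (hact : ActB N S k) {q q' : ℚ}
    (hq : 0 ≤ q) (hqq : q ≤ q') (hq1 : q' ≤ 1) {C : ℝ} (hC : 1 ≤ C) {ρ : ℝ} (hρ : 0 < ρ) :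
    Bas S (fun J F A => 0 < Pe F.p A → ∀ r : F.Ω → ℝ, IsLaw r →
      (∀ ω, r ω ≤ C * Pool.Agent.H49.Ent.cond F.p A True ω) →
      (N q q' - ρ) * Real.log 2 * J ≤ CH r (fun ω => F.D ⌊((q' : ℚ) : ℝ) * J⌋₊ ω k)
        (fun ω => (F.D ⌊((q : ℚ) : ℝ) * J⌋₊ ω, (F.X J ω, F.W ω)))) := by
  have hl2 : 0 < Real.log 2 := Real.log_pos one_lt_two
  have hC0 : 0 < C := by linarith
  obtain ⟨b, hbe⟩ : ∃ b, b = N q q' - ρ / 2 := ⟨_, rfl⟩
  rcases le_or_gt (N q q' - ρ) 0 with hb | hb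
  · refine ⟨1, one_pos, 0, fun J _ F A _ _ r hr _ => ?_⟩
    refine le_trans ?_ (CH_nonneg hr.nonneg _ _)
    exact mul_nonpos_of_nonpos_of_nonneg (mul_nonpos_of_nonpos_of_nonneg hb hl2.le)
      (Nat.cast_nonneg J)
  · have hb0 : 0 < b := by linarith
    obtain ⟨η, hη⟩ : ∃ η, η = ρ / (4 * C * b) := ⟨_, rfl⟩
    have hη0 : 0 < η := by rw [hη]; positivity
    refine (bas_big (hact q q' hq hqq hq1 (ρ / 2) (by positivity)) hη0).mono 0
      fun J _ F A hh hA r hr hd => ?_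
    have hJ0 : (0 : ℝ) ≤ J := Nat.cast_nonneg J
    have hl := isLaw_cond F.isLaw hA
    have h1 := layer hl hr hC hd (fun ω => F.D ⌊((q' : ℚ) : ℝ) * J⌋₊ ω k)
      (fun ω => (F.D ⌊((q : ℚ) : ℝ) * J⌋₊ ω, (F.X J ω, F.W ω)))
      (h₀ := b * Real.log 2 * J) (η := η) (by positivity) hη0 (fun B hB => by
        rw [cond_and F.p hA.ne', hbe]
        refine hh (fun ω => A ω ∧ B ω) (fun ω h => h.1) ?_
        rw [Pe_cnd, le_div_iff₀ hA] at hB
        exact hB)
    refine le_trans (le_of_eq ?_) h1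
    have h2 : (1 - 2 * C * η) * (b * Real.log 2 * J) = (b - ρ / 2) * Real.log 2 * J := by
      rw [hη]
      field_simp
      ring
    rw [h2, hbe]
    ring

end Pool.PLN
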